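import Pool.Agent.helper84.G4.Fin

/-!
# Closest returns of the critical orbit of `z ^ n + c` and the distance to the hyperbolic parameters

`multibrot n` and `hyperbolic n` are defined in `Pool/Agent/helper16/Multibrot/Defs.lean`.
-/

set_option autoImplicit false

namespace Pool.Agent.Results.MP_af9036_an.ClosestReturns

open Pool.Agent.helper16.Multibrot Filter

/-- The critical orbit of `z ^ n + c`: `orbit n c j` is the `j`-th iterate of `0`. -/
def orbit (n : ℕ) (c : ℂ) (j : ℕ) : ℂ := (fun w : ℂ => w ^ n + c)^[j] 0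

/-- The weight: `(1 + log p) ^ 4` for `n = 2`, and `1` for `n ≥ 3`. -/
noncomputable def weight (n p : ℕ) : ℝ := if n = 2 then (1 + Real.log p) ^ 4 else 1

/-- `p ≥ 2` is a closest return of the critical orbit to `0` of ratio at least `x ≥ 1`. -/
def ReturnRatio (n : ℕ) (c : ℂ) (p : ℕ) (x : ℝ) : Prop :=
  2 ≤ p ∧ 1 ≤ x ∧ ∀ j : ℕ, 1 ≤ j → j < p → x * ‖orbit n c p‖ ≤ ‖orbit n c j‖

/-- There is an absolute constant `K` such that for all `n ≥ 2` and `c` in the connectedness
locus of `z ^ n + c`: (1) for every finite set `P` of closest returns `p` of ratios at least `x p`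
the distance of `c` to the set of parameters with an attracting cycle is at most
`K * ∏ K W_p (1 + log (x p)) / x p` with `W_p = weight n p`; (2) if there are infinitely many
closest returns `p` of ratio at least `K W_p (1 + log W_p)` then `c` is a limit of parameters with
an attracting cycle. -/
theorem result : ∃ K : ℝ, 1 ≤ K ∧ ∀ n : ℕ, 2 ≤ n → ∀ c ∈ multibrot n,
    (∀ (P : Finset ℕ) (x : ℕ → ℝ), (∀ p ∈ P, ReturnRatio n c p (x p)) →
      Metric.infDist c (hyperbolic n) ≤
        K * ∏ p ∈ P, (K * weight n p * (1 + Real.log (x p)) / x p)) ∧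
    ((∃ᶠ p in atTop, ReturnRatio n c p (K * weight n p * (1 + Real.log (weight n p)))) →
      c ∈ closure (hyperbolic n)) := by
  obtain ⟨K, hK, h⟩ := G4A.mulG
  have hKK : K ≤ 16 * K ^ 2 := by nlinarith
  refine ⟨16 * K ^ 2, by linarith, fun n hn c hc => ⟨fun P x hP => ?_, fun hf => ?_⟩⟩
  · obtain ⟨h0, h1⟩ := G4A.prod_mono n K (16 * K ^ 2) hK hKK P x
      (fun p hp => ⟨(hP p hp).1, (hP p hp).2.1⟩)
    calc Metric.infDist c (hyperbolic n)
        ≤ K * ∏ p ∈ P, (K * weight n p * (1 + Real.log (x p)) / x p) := h n hn c hc P x hP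
      _ ≤ K * ∏ p ∈ P, (16 * K ^ 2 * weight n p * (1 + Real.log (x p)) / x p) :=
        mul_le_mul_of_nonneg_left h1 (by linarith)
      _ ≤ 16 * K ^ 2 * ∏ p ∈ P, (16 * K ^ 2 * weight n p * (1 + Real.log (x p)) / x p) :=
        mul_le_mul_of_nonneg_right hKK (h0.le.trans h1)
  · have h2 := G4A.freq K hK n c (Metric.infDist c (hyperbolic n)) (h n hn c hc)
      (hf.mono fun p hp => hp.2.2)
    rw [Metric.mem_closure_iff_infDist_zero ⟨0, GR.G4FW_zero n hn⟩]
    exact le_antisymm h2 Metric.infDist_nonneg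

end Pool.Agent.Results.MP_af9036_an.ClosestReturns
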