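import Pool.Agent.helper52.FD.All
import Pool.Agent.helper44.NLT.All

/-!
# Density of hyperbolicity for the family `z ^ n + c`

For every integer `n ≥ 2`: the Multibrot set `M_n` is the closure of the set `H_n` of the parameters
`c` for which `z ^ n + c` has an attracting cycle, and `H_n` is the interior of `M_n`.
The definitions below are those of the problem file, word by word.
-/

set_option autoImplicit false

open Filter Topology

namespace Pool.Agent.Results.MP_af9036_an.DensityOfHyperbolicity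

/-- The polynomial `f_c(z) = z ^ n + c`; `(f n c)^[k]` is its `k`-th iterate. -/
def f (n : ℕ) (c : ℂ) : ℂ → ℂ := fun z => z ^ n + c

/-- The Multibrot set `M_n`: the parameters `c` for which the orbit of `0` does not tend to
infinity. -/
def M (n : ℕ) : Set ℂ := {c | ¬ Tendsto (fun k : ℕ => ‖(f n c)^[k] 0‖) atTop atTop}

/-- `z` lies on an attracting cycle of `f_c`: `f_c^p(z) = z` and `|(f_c^p)'(z)| < 1` for some
`p ≥ 1`. -/
def OnAttractingCycle (n : ℕ) (c z : ℂ) : Prop :=
  ∃ p : ℕ, 1 ≤ p ∧ (f n c)^[p] z = z ∧ ‖deriv ((f n c)^[p]) z‖ < 1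

/-- The hyperbolic parameters `H_n`: the parameters `c` for which `f_c` has an attracting
cycle. -/
def H (n : ℕ) : Set ℂ := {c | ∃ z : ℂ, OnAttractingCycle n c z}

lemma H_eq (n : ℕ) : H n = Pool.Agent.helper16.Multibrot.hyperbolic n := by
  ext c
  constructor
  · rintro ⟨z, p, h1, h2, h3⟩
    exact ⟨z, p, h1, h2, h3⟩
  · rintro ⟨z, p, h1, h2, h3⟩
    exact ⟨z, p, h1, h2, h3⟩

/-- `M_n` is closed. -/
lemma isClosed_M (n : ℕ) (hn : 2 ≤ n) : IsClosed (M n) := by
  obtain ⟨-, hd, hb, -, -⟩ := NLT.Z_XIB n hn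
  have h : M n = ⋂ k : ℕ, {c | ‖NLT.xi n k c‖ ≤ 2} := by
    ext c
    simp only [Set.mem_iInter, Set.mem_ofPred_eq]
    constructor
    · intro hc k
      exact hb c hc k
    · intro hc ht
      obtain ⟨k, hk⟩ := (ht.eventually (eventually_gt_atTop 2)).exists
      have := hc k
      have h3 : (2 : ℝ) < ‖NLT.xi n k c‖ := hk
      linarith
  rw [h]
  exact isClosed_iInter fun k => isClosed_le (hd k).continuous.norm continuous_const

/-- `H_n` is contained in the interior of `M_n`. -/
lemma H_subset_interior (n : ℕ) (hn : 2 ≤ n) : H n ⊆ interior (M n) := by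
  intro c hc
  rw [H_eq] at hc
  obtain ⟨p, j, δ, hp, hδ, h⟩ := NLT.Z_ATT n c hn hc
  rw [mem_interior_iff_mem_nhds]
  refine Filter.mem_of_superset (Metric.ball_mem_nhds c hδ) fun x hx ht => ?_
  obtain ⟨z, hz, -, -⟩ := h x hx
  have h1 : Tendsto (fun k : ℕ => j + k * p) atTop atTop :=
    tendsto_atTop_mono (fun k => by nlinarith : ∀ k : ℕ, k ≤ j + k * p) tendsto_id
  exact not_tendsto_nhds_of_tendsto_atTop (ht.comp h1) _ hz.norm

/-- DENSITY OF HYPERBOLICITY for unicritical polynomials, all degrees: for every `n ≥ 2` the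
Multibrot set `M_n` is the closure of `H_n`, and the interior of `M_n` is `H_n`. -/
theorem result : ∀ n : ℕ, 2 ≤ n → closure (H n) = M n ∧ interior (M n) = H n := by
  intro n hn
  have hd : ∀ c ∈ M n, c ∈ closure (H n) := fun c hc => by
    rw [H_eq]
    exact FD.FIN_f n hn c hc
  refine ⟨Set.Subset.antisymm ?_ hd, Set.Subset.antisymm ?_ (H_subset_interior n hn)⟩
  · exact closure_minimal ((H_subset_interior n hn).trans interior_subset) (isClosed_M n hn)
  · intro c hc
    have h1 := hd c (interior_subset hc)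
    rw [H_eq] at h1 ⊢
    exact NLT.Z_HYI n c hn hc h1

end Pool.Agent.Results.MP_af9036_an.DensityOfHyperbolicity
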