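import Pool.Agent.helper94.PL.Fin

/-!
# Density of hyperbolicity at parameters with many dynamic rays per period (MP_af9036_an)

There is `C = C(n)` such that for `c ∈ M_n` and a periodic point `z` of exact period `k` at which more
than `C k + K(ε)` dynamic rays of periodic angles land, `c` is within `ε` of `H_n`; if
`N(z) > C per(z)` for infinitely many periodic points `z`, then `c ∈ closure H_n`.
-/

set_option autoImplicit false

open Pool.Agent.helper16.Multibrot Filter Topology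

noncomputable section

namespace Pool.Agent.Results.MP_af9036_an.RaysPerPeriod

/-- The derivative at `z` of the `k`-th iterate of `w ^ n + c`. -/
def multiplier (n k : ℕ) (c z : ℂ) : ℂ := deriv ((fun w : ℂ => w ^ n + c)^[k]) z

/-- `z` is a periodic point of `w ^ n + c` of exact period `k ≥ 1`. -/
def Cycle (n k : ℕ) (c z : ℂ) : Prop :=
  0 < k ∧ Function.minimalPeriod (fun w : ℂ => w ^ n + c) z = k

/-- `γ` is the dynamic ray of `f = w ^ n + c` of the periodic angle `θ` (in turns), parametrized by the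
potential `t > 0`: it is continuous, `f^m (γ t) = γ (n^m t)` for some `m ≥ 1` with
`(n^m - 1) θ ∈ ℤ`, and `γ t / exp (t + 2 π i θ) → 1` as `t → ∞`. -/
def IsRay (n : ℕ) (c : ℂ) (θ : ℝ) (γ : ℝ → ℂ) : Prop :=
  ContinuousOn γ (Set.Ioi 0) ∧ (∃ m : ℕ, 0 < m ∧ (∃ j : ℤ, ((n : ℝ) ^ m - 1) * θ = j) ∧
    ∀ t : ℝ, 0 < t → (fun w : ℂ => w ^ n + c)^[m] (γ t) = γ ((n : ℝ) ^ m * t)) ∧
  Tendsto (fun t : ℝ => γ t * Complex.exp (-((t : ℂ) + 2 * Real.pi * θ * Complex.I))) atTop (𝓝 1)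

/-- The set of the periodic angles in `[0, 1)` whose dynamic rays land at `z`. -/
def raysAt (n : ℕ) (c z : ℂ) : Set ℝ :=
  {θ | 0 ≤ θ ∧ θ < 1 ∧ ∃ γ : ℝ → ℂ, IsRay n c θ γ ∧ Tendsto γ (𝓝[>] 0) (𝓝 z)}

/-- Many dynamic rays per period force hyperbolic parameters nearby. -/
theorem result : ∀ n : ℕ, 2 ≤ n →
    (∃ C : ℝ, (∀ ε > (0 : ℝ), ∃ K : ℝ, ∀ c ∈ multibrot n, ∀ (k : ℕ) (z : ℂ), Cycle n k c z →
        ∀ Θ : Finset ℝ, ↑Θ ⊆ raysAt n c z → C * k + K < (Θ.card : ℝ) →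
          Metric.infDist c (hyperbolic n) < ε) ∧
      ∀ c ∈ multibrot n, {z : ℂ | ∃ k : ℕ, Cycle n k c z ∧
        ∃ Θ : Finset ℝ, ↑Θ ⊆ raysAt n c z ∧ C * k < (Θ.card : ℝ)}.Infinite →
          c ∈ closure (hyperbolic n)) ∧
    ∀ d > (0 : ℝ), ∃ K : ℝ, ∀ c ∈ multibrot n, ∀ (k : ℕ) (z : ℂ), Cycle n k c z →
      d ≤ ‖multiplier n k c z / ‖multiplier n k c z‖ - 1‖ →
        ∀ Θ : Finset ℝ, ↑Θ ⊆ raysAt n c z →
          Metric.infDist c (hyperbolic n) * (Θ.card : ℝ) ≤ K * k := by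
  intro n hn
  refine ⟨?_, fun d hd => ?_⟩
  · obtain ⟨C, h1, h2⟩ := PLY.FI5_t n hn
    refine ⟨C, fun ε hε => ?_, fun c hc h => ?_⟩
    · obtain ⟨K, hK⟩ := h1 ε hε
      refine ⟨K, fun c hc k z hz Θ hΘ hlt => hK c hc k z Θ hz.1 hz.2 (fun θ hθ => ?_) hlt⟩
      exact hΘ (Finset.mem_coe.mpr hθ)
    · refine h2 c hc (h.mono ?_)
      rintro z ⟨k, hz, Θ, hΘ, hlt⟩
      exact ⟨k, Θ, hz.1, hz.2, fun θ hθ => hΘ (Finset.mem_coe.mpr hθ), hlt⟩
  · obtain ⟨K, hK⟩ := PLY.FI2_t n hn d hd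
    exact ⟨K, fun c hc k z hz h1 Θ hΘ => hK c hc k z Θ hz.1 hz.2 h1
      (fun θ hθ => hΘ (Finset.mem_coe.mpr hθ))⟩

end Pool.Agent.Results.MP_af9036_an.RaysPerPeriod
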