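import Pool.Agent.helper60.XP.XFinal

/-!
# Multipliers of `z ^ n + c` away from the hyperbolic parameters: a constant depending only on `n`

`multibrot n` (`M_n`) and `hyperbolic n` (`H_n`) are defined in
`Pool/Agent/helper16/Multibrot/Defs.lean`.
-/

set_option autoImplicit false

namespace Pool.Agent.Results.MP_af9036_an.UniversalConstant

open Pool.Agent.helper16.Multibrot

/-- The derivative at `z` of the `k`-th iterate of `w ^ n + c`. -/
noncomputable def multiplier (n k : ℕ) (c z : ℂ) : ℂ := deriv ((fun w : ℂ => w ^ n + c)^[k]) z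

/-- `z` is a periodic point of `w ^ n + c` of exact period `k ≥ 1`. -/
def Cycle (n k : ℕ) (c z : ℂ) : Prop :=
  0 < k ∧ Function.minimalPeriod (fun w : ℂ => w ^ n + c) z = k

/-- For every `n ≥ 2` there is `ε > 0`, depending only on `n`, with the following properties. If `c`
has distance at least `r > 0` from the hyperbolic parameters then the multipliers of all cycles of
`z ^ n + c` have modulus at least `1 + δ`, `δ > 0` depending only on `n` and `r`, and the multipliers
of all cycles of period at least `K` have modulus at least `1 + ε`, `K` depending only on `n` and `r`.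
If `z ^ n + c` has infinitely many periodic points with multiplier of modulus less than `1 + ε` then
`c` is in the closure of the set of the hyperbolic parameters. -/
theorem result : ∀ n : ℕ, 2 ≤ n → ∃ ε > (0 : ℝ),
    (∀ r > (0 : ℝ), ∃ δ > (0 : ℝ), ∃ K : ℕ, ∀ c : ℂ, (∀ c' ∈ hyperbolic n, r ≤ ‖c' - c‖) →
      ∀ (k : ℕ) (z : ℂ), Cycle n k c z → 1 + δ ≤ ‖multiplier n k c z‖ ∧
        (K ≤ k → 1 + ε ≤ ‖multiplier n k c z‖)) ∧
    (∀ c : ℂ, {z : ℂ | ∃ k : ℕ, Cycle n k c z ∧ ‖multiplier n k c z‖ < 1 + ε}.Infinite →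
      c ∈ closure (hyperbolic n)) := by
  intro n hn
  obtain ⟨ε₁, hε₁, h1⟩ := XPA.XU_f n hn
  obtain ⟨ε₂, hε₂, h2⟩ := XPA.XF_f n hn
  have hball : ∀ (c : ℂ) (r : ℝ), (∀ c' ∈ hyperbolic n, r ≤ ‖c' - c‖) →
      Disjoint (Metric.ball c r) (hyperbolic n) := by
    intro c r hc
    rw [Set.disjoint_left]
    intro c' hc' hH
    have := hc c' hH
    rw [Metric.mem_ball, dist_eq_norm] at hc'
    linarith
  refine ⟨min ε₁ ε₂, lt_min hε₁ hε₂, ?_, ?_⟩
  · intro r hr
    obtain ⟨δ, hδ, h3⟩ := V3A.FW_v n hn r hr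
    obtain ⟨K, hK⟩ := h1 r hr
    refine ⟨δ, hδ, K, fun c hc k z hz => ⟨?_, fun hk => ?_⟩⟩
    · exact h3 c (hball c r hc) k z hz.1 hz.2
    · have h4 := hK c (hball c r hc) k z hk hz.1 hz.2
      have h5 := min_le_left ε₁ ε₂
      change 1 + min ε₁ ε₂ ≤ ‖MPS.mlt n k c z‖
      linarith
  · intro c hinf
    by_contra hc
    apply hinf
    refine (h2 c hc).subset ?_
    rintro z ⟨k, hz, hlt⟩
    refine ⟨k, hz.1, hz.2, ?_⟩
    have h5 := min_le_right ε₁ ε₂
    change ‖MPS.mlt n k c z‖ < _ at hlt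
    linarith

end Pool.Agent.Results.MP_af9036_an.UniversalConstant
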